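import Pool.Agent.W394.BQN.Stm

/-! Project BQN (owner helper394): denominators. -/

set_option autoImplicit false

open Polynomial

namespace Pool.Agent.W351.BQN

open Pool.Agent.W394.BQN BQ

theorem exists_monic {V W : Type} [CommRing V] [CommRing W] (i : V →+* W) (hi : i.Finite)
    (f : W[X]) (hf : f.Monic) : ∃ g : V[X], g.Monic ∧ f ∣ g.map i := by
  have h1 : Module.Finite W (AdjoinRoot f) := hf.finite_adjoinRoot
  have h2 : (AdjoinRoot.of f).Finite := by
    have h3 : (algebraMap W (AdjoinRoot f)).Finite := (RingHom.finite_algebraMap).2 h1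
    rwa [AdjoinRoot.algebraMap_eq] at h3
  have h3 : ((AdjoinRoot.of f).comp i).Finite := h2.comp hi
  obtain ⟨g, hg, he⟩ := h3.to_isIntegral (AdjoinRoot.root f)
  refine ⟨g, hg, ?_⟩
  rw [← AdjoinRoot.mk_eq_zero]
  have h4 : AdjoinRoot.mk f (g.map i) = eval₂ (AdjoinRoot.of f) (AdjoinRoot.root f) (g.map i) := by
    rw [← AdjoinRoot.aeval_eq, aeval_def, AdjoinRoot.algebraMap_eq]
  rw [h4, eval₂_map]
  exact he

theorem t_INT : S_INT := by
  intro V W _ _ _ _ i hi f hf
  obtain ⟨a, f₀, h1, h2, h3, h4⟩ := BQ.S2.factor W f hf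
  have h4' : f₀.coeff 0 = 1 := by rw [coeff_zero_eq_eval_zero]; exact h4
  have ht0 : f₀.natTrailingDegree = 0 := by
    rw [natTrailingDegree_eq_zero]
    right
    rw [h4']
    exact one_ne_zero
  obtain ⟨g₁, hg1, hd1⟩ := exists_monic i hi f₀ h3
  have hrm : f₀.reverse.Monic := by
    rw [Monic, reverse_leadingCoeff]
    exact h2.2
  obtain ⟨g₂, hg2, hd2⟩ := exists_monic i hi f₀.reverse hrm
  have hrr : f₀.reverse.reverse = f₀ := by
    have e1 : f₀.reverse.natDegree = f₀.natDegree := by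
      rw [reverse_natDegree, ht0, Nat.sub_zero]
    rw [reverse, e1, reverse]
    exact reflect_reflect
  have hd3 : f₀ ∣ g₂.reverse.map i := by
    obtain ⟨c, hc⟩ := hd2
    have e1 : g₂.reverse.map i = (g₂.map i).reverse := by
      rw [reverse, reverse, hg2.natDegree_map, reflect_map]
    rw [e1, hc, reverse_mul_of_domain, hrr]
    exact dvd_mul_right _ _
  set g₃ := g₂.reverse with hg3
  have hc3 : g₃.coeff 0 = 1 := by
    rw [hg3, coeff_zero_reverse]
    exact hg2
  set N := g₃.natDegree + 1 with hN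
  have hmon : (g₃ + X ^ N * g₁).Monic := by
    refine Monic.add_of_right ((monic_X_pow N).mul hg1) ?_
    have hm : (X ^ N * g₁).Monic := (monic_X_pow N).mul hg1
    rw [degree_eq_natDegree hm.ne_zero]
    refine lt_of_le_of_lt degree_le_natDegree ?_
    rw [(monic_X_pow N).natDegree_mul hg1, natDegree_X_pow]
    exact_mod_cast (by omega : g₃.natDegree < N + g₁.natDegree)
  have hco : (g₃ + X ^ N * g₁).coeff 0 = 1 := by
    rw [coeff_add, hc3, mul_coeff_zero, coeff_X_pow]
    rw [if_neg (by omega), zero_mul, add_zero]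
  refine ⟨X ^ a * (g₃ + X ^ N * g₁), E.mem_S2_of a _ hmon hco, ?_⟩
  rw [h1, Polynomial.map_mul, Polynomial.map_pow, map_X]
  refine mul_dvd_mul_left _ ?_
  rw [Polynomial.map_add, Polynomial.map_mul]
  exact dvd_add hd3 (hd1.mul_left _)

end Pool.Agent.W351.BQN
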